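import Mathlib

/-!
# Three perfect matchings: definitions (paper: PAPER_R3B.md)

Rows and columns are both `V`; the three perfect matchings are the permutations `σ 0 = 1`, `σ 1`,
`σ 2`; the edge of row `v` with label `j` goes to column `σ j v`.
-/

set_option autoImplicit false

namespace Pool.Agent.R3

/-- `[b ≤ t]` as an integer -/
def ind (b t : ℤ) : ℤ := if b ≤ t then 1 else 0

/-- the cochain on the plane of counts -/
def om (b c : ℤ) (q r : ℤ × ℤ) : ℤ := (ind b r.1 - ind b q.1) * ind c q.2 * ind c r.2

/-- the step of a label -/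
def dl (j : Fin 3) : ℤ × ℤ := (if j = 1 then 1 else 0, if j = 2 then 1 else 0)

/-- the three vectors around the centre -/
def InD (b c : ℤ) (d : ℤ × ℤ) : Prop := d = (b, c) ∨ d = (b - 1, c) ∨ d = (b, c - 1)

variable {V : Type} [Fintype V] [DecidableEq V]

/-- the column of row `v` -/
def ph (σ : Fin 3 → Equiv.Perm V) (l : V → Fin 3) (v : V) : V := σ (l v) v

/-- number of rows with label `j` -/
def ct (l : V → Fin 3) (j : Fin 3) : ℕ := (Finset.univ.filter (fun v => l v = j)).card

/-- the counts of the labels `1` and `2` -/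
def pt (l : V → Fin 3) : ℤ × ℤ := ((ct l 1 : ℤ), (ct l 2 : ℤ))

/-- number of rows with a label different from `0` -/
def nu (l : V → Fin 3) : ℕ := (Finset.univ.filter (fun v => l v ≠ 0)).card

/-- the weight of a move -/
def W (b c : ℤ) (l l' : V → Fin 3) : ℤ := om b c (pt l) (pt l')

/-- near perfect matching with free row `x` and free column `y` (by convention the free row has
label `0`) -/
def NP (σ : Fin 3 → Equiv.Perm V) (l : V → Fin 3) (x y : V) : Prop :=
  l x = 0 ∧ (∀ v, v ≠ x → ph σ l v ≠ y) ∧
    ∀ v w, v ≠ x → w ≠ x → ph σ l v = ph σ l w → v = w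

/-- perfect matching -/
def PF (σ : Fin 3 → Equiv.Perm V) (l : V → Fin 3) : Prop := Function.Injective (ph σ l)

/-- the standing assumption: the vector `d` is missed -/
structure Ctx (σ : Fin 3 → Equiv.Perm V) (b c : ℤ) (d : ℤ × ℤ) : Prop where
  s0 : σ 0 = 1
  hd : InD b c d
  miss : ∀ l x y, NP σ l x y → pt l ≠ d
  cen : ∀ l, PF σ l → pt l ≠ (b, c)

theorem nu_lt {l : V → Fin 3} {v : V} (h : l v ≠ 0) : nu (Function.update l v 0) < nu l := by
  unfold nu
  apply Finset.card_lt_card
  rw [Finset.ssubset_iff_of_subset]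
  · refine ⟨v, ?_, ?_⟩
    · simp [h]
    · simp
  · intro u hu
    rw [Finset.mem_filter] at hu ⊢
    refine ⟨Finset.mem_univ _, ?_⟩
    rcases eq_or_ne u v with rfl | huv
    · exact h
    · rw [Function.update_of_ne huv] at hu
      exact hu.2

/-- sum of the weights of the column retractions, with the value `B` at the end -/
noncomputable def Fd (σ : Fin 3 → Equiv.Perm V) (b c : ℤ) (B : (V → Fin 3) → ℤ)
    (l : V → Fin 3) (x y : V) : ℤ :=
  if _h : x ≠ y ∧ l y ≠ 0 then
    W b c l (Function.update l y 0) + Fd σ b c B (Function.update l y 0) x (ph σ l y)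
  else B l
termination_by nu l
decreasing_by exact nu_lt _h.2

/-- the end of the column retractions -/
noncomputable def ret {V : Type} [Fintype V] [DecidableEq V] (σ : Fin 3 → Equiv.Perm V)
    (l : V → Fin 3) (x y : V) : V → Fin 3 :=
  if _h : x ≠ y ∧ l y ≠ 0 then ret σ (Function.update l y 0) x (ph σ l y) else l
termination_by nu l
decreasing_by exact nu_lt _h.2

/-- the potential -/
noncomputable def Ps (σ : Fin 3 → Equiv.Perm V) (b c : ℤ) (l : V → Fin 3) (x y : V) : ℤ :=
  if _h : x ≠ y ∧ l y ≠ 0 then
    W b c l (Function.update l y 0) + Ps σ b c (Function.update l y 0) x (ph σ l y)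
  else if h' : ∃ v, l v ≠ 0 then
    W b c l (Function.update l h'.choose 0) +
      Ps σ b c (Function.update l h'.choose 0) h'.choose (ph σ l h'.choose)
  else 0
termination_by nu l
decreasing_by
  · exact nu_lt _h.2
  · exact nu_lt h'.choose_spec

/-- the value at a perfect matching, read off at the row `g` -/
noncomputable def Bg (σ : Fin 3 → Equiv.Perm V) (b c : ℤ) (g : V) (l : V → Fin 3) : ℤ :=
  W b c l (Function.update l g 0) + Ps σ b c (Function.update l g 0) g (ph σ l g)

open Classical in
/-- the value at a perfect matching, read off at the chosen row -/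
noncomputable def Bs (σ : Fin 3 → Equiv.Perm V) (b c : ℤ) (l : V → Fin 3) : ℤ :=
  if h' : ∃ v, l v ≠ 0 then Bg σ b c h'.choose l else 0

/-- the value at a perfect matching does not depend on the row -/
def XM (σ : Fin 3 → Equiv.Perm V) (b c : ℤ) (M : ℕ) : Prop :=
  ∀ l, PF σ l → nu l ≤ M → ∀ f g, l f ≠ 0 → l g ≠ 0 → Bg σ b c f l = Bg σ b c g l

end Pool.Agent.R3
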