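import Mathlib
import Pool.Agent.R3.Defs

/-!
# Three perfect matchings: the statements of the modules (paper: PAPER_R3B.md)
-/

set_option autoImplicit false

namespace Pool.Agent.R3

/-! ## Cells -/

/-- UPT: up triangles -/
def UptStmt : Prop :=
  ∀ (b c : ℤ) (k : ℤ × ℤ) (i j m : Fin 3),
    om b c (k + dl i) (k + dl j) + om b c (k + dl j) (k + dl m) = om b c (k + dl i) (k + dl m)

/-- DNT: down triangles -/
def DntStmt : Prop :=
  ∀ (b c : ℤ) (p : ℤ × ℤ) (i j m : Fin 3), p ≠ (b, c) →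
    om b c (p - dl i) (p - dl j) + om b c (p - dl j) (p - dl m) = om b c (p - dl i) (p - dl m)

/-- SQA: squares -/
def SqaStmt : Prop :=
  ∀ (b c : ℤ) (d k : ℤ × ℤ) (i i' j j' : Fin 3), InD b c d →
    k + dl i + dl j ≠ d → k + dl i' + dl j ≠ d → k + dl i' + dl j' ≠ d → k + dl i + dl j' ≠ d →
    om b c (k + dl i + dl j) (k + dl i' + dl j) + om b c (k + dl i' + dl j) (k + dl i' + dl j') =
    om b c (k + dl i + dl j) (k + dl i + dl j') + om b c (k + dl i + dl j') (k + dl i' + dl j')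

/-! ## The potential -/

/-- FDR: row retractions -/
def FdrStmt : Prop :=
  ∀ (V : Type) [Fintype V] [DecidableEq V] (σ : Fin 3 → Equiv.Perm V) (b c : ℤ) (d : ℤ × ℤ),
    Ctx σ b c d → ∀ (B : (V → Fin 3) → ℤ) (l : V → Fin 3) (x y p : V), NP σ l x y → x ≠ y →
    p ≠ x → ph σ l p = x →
    Fd σ b c B l x y =
      W b c l (Function.update l p 0) + Fd σ b c B (Function.update l p 0) p y ∧
    ret σ (Function.update l p 0) p y = ret σ l x y

/-- ROW: absorbing row moves -/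
def RowStmt : Prop :=
  ∀ (V : Type) [Fintype V] [DecidableEq V] (σ : Fin 3 → Equiv.Perm V) (b c : ℤ) (d : ℤ × ℤ),
    Ctx σ b c d → ∀ (l : V → Fin 3) (x y g : V) (j : Fin 3) (Y : Finset V), NP σ l x y →
    l g ≠ 0 → j ≠ 0 → ph σ l g = σ j x → x ∈ Y → y ∈ Y → g ∉ Y →
    (∀ v ∈ Y, v ≠ x → ph σ l v ∈ Y) →
    Fd σ b c (Bg σ b c g) l x y =
      W b c l (Function.update (Function.update l x j) g 0) +
        Ps σ b c (Function.update (Function.update l x j) g 0) g y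

/-- COL: absorbing column moves -/
def ColStmt : Prop :=
  ∀ (V : Type) [Fintype V] [DecidableEq V] (σ : Fin 3 → Equiv.Perm V) (b c : ℤ) (d : ℤ × ℤ),
    Ctx σ b c d → ∀ (l : V → Fin 3) (x y r : V) (j : Fin 3) (R : Finset V), NP σ l x y →
    l r ≠ 0 → j ≠ 0 → σ j r = y → r ∈ R → x ∉ R → y ∉ R → (∀ v ∈ R, ph σ l v ∈ R) →
    Fd σ b c (Bg σ b c r) l x y =
      W b c l (Function.update l r j) + Ps σ b c (Function.update l r j) x (ph σ l r)

/-- ALF: two consecutive rows of a cycle -/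
def AlfStmt : Prop :=
  ∀ (V : Type) [Fintype V] [DecidableEq V] (σ : Fin 3 → Equiv.Perm V) (b c : ℤ) (d : ℤ × ℤ),
    Ctx σ b c d → ∀ (P : V → Fin 3) (v : V), PF σ P → P v ≠ 0 →
    P (ph σ P v) ≠ 0 ∧ Bg σ b c v P = Bg σ b c (ph σ P v) P

/-- a state over the perfect matching `P` -/
def Over {V : Type} [Fintype V] [DecidableEq V] (σ : Fin 3 → Equiv.Perm V) (P l : V → Fin 3)
    (z y : V) : Prop :=
  NP σ l z y ∧ ret σ l z y = P ∧ ∀ v, P v ≠ 0 → l v = P v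

/-- MSA: a direct arc between two classes -/
def MsaStmt : Prop :=
  ∀ (V : Type) [Fintype V] [DecidableEq V] (σ : Fin 3 → Equiv.Perm V) (b c : ℤ) (d : ℤ × ℤ),
    Ctx σ b c d → ∀ (M : ℕ), XM σ b c M → ∀ (P : V → Fin 3) (R : Finset V) (x₀ g : V) (j : Fin 3),
    PF σ P → nu P = M + 1 → (∀ v ∈ R, P v ≠ 0) → (∀ v ∈ R, ph σ P v ∈ R) → x₀ ∈ R →
    P g ≠ 0 → g ∉ R → σ j x₀ = ph σ P g → Bg σ b c x₀ P = Bg σ b c g P

/-- MSB: a path of free vertices between two classes -/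
def MsbStmt : Prop :=
  ∀ (V : Type) [Fintype V] [DecidableEq V] (σ : Fin 3 → Equiv.Perm V) (b c : ℤ) (d : ℤ × ℤ),
    Ctx σ b c d → ∀ (M : ℕ), XM σ b c M → ∀ (P l : V → Fin 3) (R : Finset V) (x₀ g z y : V)
    (j i : Fin 3), PF σ P → nu P = M + 1 → (∀ v ∈ R, P v ≠ 0) → (∀ v ∈ R, ph σ P v ∈ R) →
    x₀ ∈ R → P g ≠ 0 → g ∉ R → Over σ P l z y → σ j x₀ = y → σ i z = ph σ P g →
    Bg σ b c x₀ P = Bg σ b c g P

/-- OVX: extending a state over `P` -/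
def OvxStmt : Prop :=
  ∀ (V : Type) [Fintype V] [DecidableEq V] (σ : Fin 3 → Equiv.Perm V) (b c : ℤ) (d : ℤ × ℤ),
    Ctx σ b c d → ∀ (P l : V → Fin 3) (z y : V) (j : Fin 3), PF σ P → Over σ P l z y → j ≠ 0 →
    l (σ j z) = 0 → σ j z ≠ y → σ j z ≠ z → P (σ j z) = 0 →
    Over σ P (Function.update l z j) (σ j z) y

/-- OVC: cutting a state over `P` -/
def OvcStmt : Prop :=
  ∀ (V : Type) [Fintype V] [DecidableEq V] (σ : Fin 3 → Equiv.Perm V) (b c : ℤ) (d : ℤ × ℤ),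
    Ctx σ b c d → ∀ (P l : V → Fin 3) (z y v : V), PF σ P → Over σ P l z y → P v = 0 →
    (l v ≠ 0 ∨ v = z) → ∃ l', Over σ P l' v y

/-- `σ` is connected -/
def Conn {V : Type} (σ : Fin 3 → Equiv.Perm V) : Prop :=
  ∀ Z : Set V, Z.Nonempty → (∀ v ∈ Z, ∀ j, σ j v ∈ Z) → Z = Set.univ

/-- REA: the induction step -/
def ReaStmt : Prop :=
  ∀ (V : Type) [Fintype V] [DecidableEq V] (σ : Fin 3 → Equiv.Perm V) (b c : ℤ) (d : ℤ × ℤ),
    Ctx σ b c d → Conn σ → ∀ (M : ℕ), XM σ b c M → XM σ b c (M + 1)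

/-- RWG: all row moves -/
def RwgStmt : Prop :=
  ∀ (V : Type) [Fintype V] [DecidableEq V] (σ : Fin 3 → Equiv.Perm V) (b c : ℤ) (d : ℤ × ℤ),
    Ctx σ b c d → (∀ M, XM σ b c M) → ∀ (l : V → Fin 3) (x y g : V) (j : Fin 3), NP σ l x y →
    g ≠ x → l g ≠ 0 → j ≠ 0 → ph σ l g = σ j x →
    Ps σ b c l x y = W b c l (Function.update (Function.update l x j) g 0) +
        Ps σ b c (Function.update (Function.update l x j) g 0) g y

/-- WLK: the contradiction -/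
def WlkStmt : Prop :=
  ∀ (V : Type) [Fintype V] [DecidableEq V] (σ : Fin 3 → Equiv.Perm V) (b c : ℤ) (d : ℤ × ℤ),
    Ctx σ b c d → (∀ M, XM σ b c M) → 1 ≤ b → 1 ≤ c → b + c + 1 ≤ (Fintype.card V : ℤ) → False

/-- CON: the connected case -/
def ConStmt : Prop :=
  ∀ (V : Type) [Fintype V] [DecidableEq V] (σ : Fin 3 → Equiv.Perm V), σ 0 = 1 → Conn σ →
    ∀ a₁ a₂ : ℕ, a₁ + a₂ + 1 ≤ Fintype.card V →
    ∃ l x y, NP σ l x y ∧ ct l 1 = a₁ ∧ ct l 2 = a₂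

/-- DRI: Drisko's theorem for three matchings -/
def DriStmt : Prop :=
  ∀ (V : Type) [Fintype V] [DecidableEq V] (σ : Fin 3 → Equiv.Perm V) (a : Fin 3 → ℕ),
    2 * Fintype.card V ≤ a 0 + a 1 + a 2 + 1 → ∃ l, PF σ l ∧ ∀ j, ct l j ≤ a j

/-- GEN: the exact theorem for permutations -/
def GenStmt : Prop :=
  ∀ (V : Type) [Fintype V] [DecidableEq V] (σ : Fin 3 → Equiv.Perm V), σ 0 = 1 →
    ∀ a₁ a₂ : ℕ, a₁ + a₂ + 1 ≤ Fintype.card V →
    ∃ l x y, NP σ l x y ∧ ct l 1 = a₁ ∧ ct l 2 = a₂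

/-- FIN: the exact theorem for three perfect matchings of a bipartite multigraph -/
def FinStmt : Prop :=
  ∀ (R C : Type) [Fintype R] [DecidableEq R] [DecidableEq C] (f : Fin 3 → R ≃ C) (a : Fin 3 → ℕ),
    a 0 + a 1 + a 2 + 1 ≤ Fintype.card R →
    ∃ A : Fin 3 → Finset R, (∀ i, (A i).card = a i) ∧
      (∀ i j, i ≠ j → Disjoint (A i) (A j)) ∧
      (∀ i j, ∀ r ∈ A i, ∀ s ∈ A j, f i r = f j s → r = s)

end Pool.Agent.R3
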